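import Mathlib
import Pool.Agent.W355.FR.Stm

set_option autoImplicit false

/-! MSQ: function field Szpiro inequality over `ℚ[X]`, by a direct Wronskian argument. -/

namespace Pool.Agent.W699.FR

open Polynomial
open Pool.Agent.W355.FR

lemma pow_dvd_mul_derivative {P f : ℚ[X]} {n : ℕ} (h : P ^ n ∣ f) : P ^ n ∣ P * derivative f := by
  cases n with
  | zero => simp
  | succ n =>
    have := Polynomial.pow_sub_one_dvd_derivative_of_pow_dvd h
    rw [Nat.add_sub_cancel] at this
    rw [pow_succ']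
    exact mul_dvd_mul_left P this

/-- the Wronskian -/
noncomputable def Wr (A B : ℚ[X]) : ℚ[X] := 3 * derivative A * B - 2 * A * derivative B

lemma id1 (A B : ℚ[X]) : 3 * (4 * A ^ 3 + 27 * B ^ 2) * derivative A -
    A * derivative (4 * A ^ 3 + 27 * B ^ 2) = 27 * B * Wr A B := by
  unfold Wr
  have h1 : derivative (4 * A ^ 3 + 27 * B ^ 2) =
      12 * A ^ 2 * derivative A + 54 * B * derivative B := by
    have e4 : (4 : ℚ[X]) = C 4 := rfl
    have e27 : (27 : ℚ[X]) = C 27 := rfl
    rw [derivative_add, e4, e27, derivative_C_mul, derivative_C_mul, derivative_pow,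
      derivative_pow]
    rw [← e4, ← e27]
    simp only [Nat.add_one_sub_one, map_natCast]
    push_cast
    ring
  rw [h1]
  ring

lemma id2 (A B : ℚ[X]) : 2 * (4 * A ^ 3 + 27 * B ^ 2) * derivative B -
    B * derivative (4 * A ^ 3 + 27 * B ^ 2) = -4 * A ^ 2 * Wr A B := by
  unfold Wr
  have h1 : derivative (4 * A ^ 3 + 27 * B ^ 2) =
      12 * A ^ 2 * derivative A + 54 * B * derivative B := by
    have e4 : (4 : ℚ[X]) = C 4 := rfl
    have e27 : (27 : ℚ[X]) = C 27 := rfl
    rw [derivative_add, e4, e27, derivative_C_mul, derivative_C_mul, derivative_pow,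
      derivative_pow]
    rw [← e4, ← e27]
    simp only [Nat.add_one_sub_one, map_natCast]
    push_cast
    ring
  rw [h1]
  ring

lemma not_dvd_const {P : ℚ[X]} (hP : Prime P) {c : ℚ} (hc : c ≠ 0) : ¬ P ∣ C c := by
  intro h
  exact hP.not_isUnit (isUnit_of_dvd_unit h (isUnit_C.2 (isUnit_iff_ne_zero.2 hc)))

/-- local statement, `P` not dividing `A` -/
lemma loc1 {A B P : ℚ[X]} (hP : Prime P) {n : ℕ} (hn : P ^ n ∣ 4 * A ^ 3 + 27 * B ^ 2)
    (hPD : P ∣ 4 * A ^ 3 + 27 * B ^ 2) (hA : ¬ P ∣ A) : P ^ n ∣ Wr A B * P ^ 1 := by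
  have hB : ¬ P ∣ 27 * B := by
    intro h
    have h1 : P ∣ 4 * A ^ 3 := by
      have : (4 * A ^ 3 : ℚ[X]) = (4 * A ^ 3 + 27 * B ^ 2) - 27 * B * B := by ring
      rw [this]
      exact dvd_sub hPD (dvd_mul_of_dvd_left h _)
    rcases hP.dvd_or_dvd h1 with h2 | h2
    · exact not_dvd_const hP (c := 4) (by norm_num) h2
    · exact hA (hP.dvd_of_dvd_pow h2)
  have h1 : P ^ n ∣ 27 * B * (Wr A B * P ^ 1) := by
    have : 27 * B * (Wr A B * P ^ 1) = (4 * A ^ 3 + 27 * B ^ 2) * (P * 3 * derivative A) -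
        A * (P * derivative (4 * A ^ 3 + 27 * B ^ 2)) := by
      have := id1 A B
      linear_combination (-P) * this
    rw [this]
    exact dvd_sub (dvd_mul_of_dvd_left hn _) (dvd_mul_of_dvd_right (pow_dvd_mul_derivative hn) _)
  exact hP.pow_dvd_of_dvd_mul_left n hB h1

/-- local statement, `P` dividing `A` -/
lemma loc2 {A B P : ℚ[X]} (hP : Prime P) {n : ℕ} (hn : P ^ n ∣ 4 * A ^ 3 + 27 * B ^ 2)
    (hA : A ≠ 0) (hB : B ≠ 0) (hmin : P ^ 4 ∣ A → ¬ P ^ 6 ∣ B) : P ^ n ∣ Wr A B * P ^ 2 := by
  obtain ⟨α, A1, hA1, eA⟩ := WfDvdMonoid.max_power_factor hA hP.irreducible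
  obtain ⟨β, B1, hB1, eB⟩ := WfDvdMonoid.max_power_factor hB hP.irreducible
  have hP0 : P ≠ 0 := hP.ne_zero
  have dA : P ^ α ∣ A := ⟨A1, eA⟩
  have dB : P ^ β ∣ B := ⟨B1, eB⟩
  by_cases c1 : β ≤ α + 1
  · have h1 : P ^ (α + n) ∣ 27 * B1 * (P ^ β * (Wr A B * P)) := by
      have e : 27 * B1 * (P ^ β * (Wr A B * P)) = (P * derivative A) * (4 * A ^ 3 + 27 * B ^ 2) * 3 -
          A * (P * derivative (4 * A ^ 3 + 27 * B ^ 2)) := by
        have := id1 A B
        have e2 : 27 * B1 * (P ^ β * (Wr A B * P)) = 27 * (P ^ β * B1) * Wr A B * P := by ring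
        rw [e2, ← eB]
        linear_combination (-P) * this
      rw [e, pow_add]
      exact dvd_sub (dvd_mul_of_dvd_left (mul_dvd_mul (pow_dvd_mul_derivative dA) hn) _)
        (mul_dvd_mul dA (pow_dvd_mul_derivative hn))
    have h2 : ¬ P ∣ 27 * B1 := by
      intro h
      rcases hP.dvd_or_dvd h with h2 | h2
      · exact not_dvd_const hP (c := 27) (by norm_num) h2
      · exact hB1 h2
    have h3 := hP.pow_dvd_of_dvd_mul_left _ h2 h1
    have h4 : P ^ β * P ^ n ∣ P ^ β * (Wr A B * P ^ 2) := by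
      have h5 : P ^ (α + n) * P ∣ P ^ β * (Wr A B * P) * P := mul_dvd_mul_right h3 P
      have h6 : P ^ β * P ^ n ∣ P ^ (α + n) * P := by
        rw [← pow_add, ← pow_succ]
        exact pow_dvd_pow _ (by omega)
      refine (h6.trans h5).trans (dvd_of_eq ?_)
      ring
    exact (mul_dvd_mul_iff_left (pow_ne_zero _ hP0)).1 h4
  · by_cases c2 : 2 * α ≤ β + 1
    · have h1 : P ^ (β + n) ∣ (-4 * A1 ^ 2) * (P ^ (2 * α) * (Wr A B * P)) := by
        have e : (-4 * A1 ^ 2) * (P ^ (2 * α) * (Wr A B * P)) =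
            (P * derivative B) * (4 * A ^ 3 + 27 * B ^ 2) * 2 -
            B * (P * derivative (4 * A ^ 3 + 27 * B ^ 2)) := by
          have := id2 A B
          have e2 : (-4 * A1 ^ 2) * (P ^ (2 * α) * (Wr A B * P)) =
            -4 * (P ^ α * A1) ^ 2 * Wr A B * P := by ring
          rw [e2, ← eA]
          linear_combination (-P) * this
        rw [e, pow_add]
        exact dvd_sub (dvd_mul_of_dvd_left (mul_dvd_mul (pow_dvd_mul_derivative dB) hn) _)
          (mul_dvd_mul dB (pow_dvd_mul_derivative hn))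
      have h2 : ¬ P ∣ -4 * A1 ^ 2 := by
        intro h
        rcases hP.dvd_or_dvd h with h2 | h2
        · have e4 : (-4 : ℚ[X]) = C (-4) := by
            rw [C_neg]
            rfl
          rw [e4] at h2
          exact not_dvd_const hP (c := -4) (by norm_num) h2
        · exact hA1 (hP.dvd_of_dvd_pow h2)
      have h3 := hP.pow_dvd_of_dvd_mul_left _ h2 h1
      have h4 : P ^ (2 * α) * P ^ n ∣ P ^ (2 * α) * (Wr A B * P ^ 2) := by
        have h5 : P ^ (β + n) * P ∣ P ^ (2 * α) * (Wr A B * P) * P := mul_dvd_mul_right h3 P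
        have h6 : P ^ (2 * α) * P ^ n ∣ P ^ (β + n) * P := by
          rw [← pow_add, ← pow_succ]
          exact pow_dvd_pow _ (by omega)
        refine (h6.trans h5).trans (dvd_of_eq ?_)
        ring
      exact (mul_dvd_mul_iff_left (pow_ne_zero _ hP0)).1 h4
    · exact absurd ((pow_dvd_pow P (by omega : 6 ≤ β)).trans dB)
        (hmin ((pow_dvd_pow P (by omega : 4 ≤ α)).trans dA))

theorem main : P_MSQ := by
  classical
  intro k A B hdA hdB hdD hD0 hmin hW T hT1 hT2 hT3 w hw2 hw1
  change Wr A B ≠ 0 at hW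
  have hA : A ≠ 0 := by
    rintro rfl
    apply hW
    simp [Wr]
  have hB : B ≠ 0 := by
    rintro rfl
    apply hW
    simp [Wr]
  set D : ℚ[X] := 4 * A ^ 3 + 27 * B ^ 2 with hD
  set N : ℚ[X] := ∏ P ∈ T, P ^ w P with hN
  have hN0 : N ≠ 0 := Finset.prod_ne_zero_iff.2 fun P hP => pow_ne_zero _ (hT1 P hP).1.ne_zero
  -- divisibility
  have key : D ∣ Wr A B * N := by
    rw [UniqueFactorizationMonoid.dvd_iff_normalizedFactors_le_normalizedFactors hD0
      (mul_ne_zero hW hN0), Multiset.le_iff_count]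
    intro P
    by_cases hmem : P ∈ UniqueFactorizationMonoid.normalizedFactors D
    · have hirr : Irreducible P := UniqueFactorizationMonoid.irreducible_of_normalized_factor P hmem
      have hnorm : normalize P = P := UniqueFactorizationMonoid.normalize_normalized_factor P hmem
      have hmonic : P.Monic := by
        rw [← hnorm]
        exact Polynomial.monic_normalize hirr.ne_zero
      have hPD : P ∣ D := UniqueFactorizationMonoid.dvd_of_mem_normalizedFactors hmem
      have hPT : P ∈ T := hT2 P hirr hmonic hPD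
      have hprime : Prime P := hirr.prime
      have e1 := UniqueFactorizationMonoid.emultiplicity_eq_count_normalizedFactors hirr hD0
      have e2 := UniqueFactorizationMonoid.emultiplicity_eq_count_normalizedFactors hirr
        (mul_ne_zero hW hN0)
      rw [hnorm] at e1 e2
      set n := Multiset.count P (UniqueFactorizationMonoid.normalizedFactors D) with hn
      have hdvd : P ^ n ∣ D := pow_dvd_of_le_emultiplicity (by rw [e1])
      have hloc : P ^ n ∣ Wr A B * P ^ w P := by
        by_cases hPA : P ∣ A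
        · rw [hw2 P hPT hPA]
          exact loc2 hprime hdvd hA hB (hmin P hirr)
        · rw [hw1 P hPT hPA]
          exact loc1 hprime hdvd hPD hPA
      have h3 : P ^ n ∣ Wr A B * N :=
        hloc.trans (mul_dvd_mul_left _ (Finset.dvd_prod_of_mem (fun P => P ^ w P) hPT))
      have h4 := le_emultiplicity_of_pow_dvd h3
      rw [e2] at h4
      exact_mod_cast h4
    · rw [Multiset.count_eq_zero_of_notMem hmem]
      exact Nat.zero_le _
  have h1 : D.natDegree ≤ (Wr A B * N).natDegree := natDegree_le_of_dvd key (mul_ne_zero hW hN0)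
  have h2 : (Wr A B * N).natDegree ≤ (Wr A B).natDegree + N.natDegree := natDegree_mul_le
  have h3 : N.natDegree ≤ ∑ P ∈ T, w P * P.natDegree := by
    refine (natDegree_prod_le T _).trans (Finset.sum_le_sum fun P _ => ?_)
    exact natDegree_pow_le
  have hk : 1 ≤ k := by
    by_contra hk
    have hk0 : k = 0 := by omega
    subst hk0
    apply hW
    have a1 : A.natDegree = 0 := by omega
    have a2 : B.natDegree = 0 := by omega
    rw [Wr, derivative_of_natDegree_zero a1, derivative_of_natDegree_zero a2]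
    ring
  have h4 : (Wr A B).natDegree ≤ 10 * k - 1 := by
    unfold Wr
    have c3 : (3 : ℚ[X]).natDegree = 0 := natDegree_ofNat 3
    have c2 : (2 : ℚ[X]).natDegree = 0 := natDegree_ofNat 2
    have dA := natDegree_derivative_le A
    have dB := natDegree_derivative_le B
    refine (natDegree_sub_le _ _).trans (max_le ?_ ?_)
    · refine natDegree_mul_le.trans ?_
      have := natDegree_mul_le (p := (3 : ℚ[X])) (q := derivative A)
      omega
    · refine natDegree_mul_le.trans ?_
      have := natDegree_mul_le (p := (2 : ℚ[X])) (q := A)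
      omega
  omega

end Pool.Agent.W699.FR
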